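import Pool.Agent.Helper74.DI.St

/-!
# Module E2K of project DI (MP_26f0da_lc)

Relations without a minor with exactly one one.
-/

set_option autoImplicit false

namespace Pool.Agent.Helper87.DI

open Pool.Agent.Helper74 Pool.Agent.Helper74.DI

/-- The least active letter which is not related to `x`. -/
theorem exists_least {n : ℕ} (R : Fin n → Fin n → Prop) : ∃ r : Fin n → Option ℕ,
    (∀ x, r x = none → ∀ y, (∃ z, R z y) → R x y) ∧
    (∀ x k, r x = some k → ∃ y : Fin n, y.1 = k ∧ (∃ z, R z y) ∧ ¬ R x y ∧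
      ∀ y' : Fin n, (∃ z, R z y') → ¬ R x y' → k ≤ y'.1) := by
  classical
  have key : ∀ x : Fin n, ∃ o : Option ℕ,
      (o = none → ∀ y, (∃ z, R z y) → R x y) ∧
      (∀ k, o = some k → ∃ y : Fin n, y.1 = k ∧ (∃ z, R z y) ∧ ¬ R x y ∧
        ∀ y' : Fin n, (∃ z, R z y') → ¬ R x y' → k ≤ y'.1) := by
    intro x
    by_cases h : ∃ k : ℕ, ∃ y : Fin n, y.1 = k ∧ (∃ z, R z y) ∧ ¬ R x y
    · refine ⟨some (Nat.find h), ?_, ?_⟩
      · intro h1
        simp at h1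
      · intro k hk
        have hk' : Nat.find h = k := Option.some.inj hk
        obtain ⟨y, hy, hz, hR⟩ := Nat.find_spec h
        refine ⟨y, by rw [hy, hk'], hz, hR, ?_⟩
        intro y' hz' hR'
        rw [← hk']
        exact Nat.find_min' h ⟨y', rfl, hz', hR'⟩
    · refine ⟨none, ?_, ?_⟩
      · intro _ y hz
        by_contra hR
        exact h ⟨y.1, y, rfl, hz, hR⟩
      · intro k hk
        simp at hk
  choose r hr using key
  exact ⟨r, fun x => (hr x).1, fun x => (hr x).2⟩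

theorem hE2K : StE2K := by
  intro n R _ hone
  classical
  obtain ⟨r, hnone, hsome⟩ := exists_least R
  -- the choice for columns
  have key : ∀ y : Fin n, ∃ o : Option ℕ,
      (∃ x₀, (∃ z, R x₀ z) ∧ ¬ R x₀ y ∧ o = r x₀) ∨
      ((¬ ∃ x₀, (∃ z, R x₀ z) ∧ ¬ R x₀ y) ∧ o = none) := by
    intro y
    by_cases h : ∃ x₀, (∃ z, R x₀ z) ∧ ¬ R x₀ y
    · obtain ⟨x₀, h1, h2⟩ := h
      exact ⟨r x₀, Or.inl ⟨x₀, h1, h2, rfl⟩⟩
    · exact ⟨none, Or.inr ⟨h, rfl⟩⟩
  choose r' hr' using key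
  refine ⟨r, r', ?_⟩
  intro x y hx hy
  -- two active rows with a common zero have the same zeros among active columns
  have same : ∀ x x₀ : Fin n, (∃ z, R x z) → ¬ R x y → ¬ R x₀ y →
      ∀ z, ¬ R x z → ¬ R x₀ z := by
    intro x x₀ hx h1 h2 z h3 h4
    exact hone ⟨x₀, x, y, z, hx, hy, h4, h2, h1, h3⟩
  constructor
  · intro hR
    by_contra hD
    have hD1 : r x = r' y := by
      by_contra h
      exact hD (Or.inl h)
    have hD2 : r x ≠ none := fun h => hD (Or.inr h)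
    rcases hr' y with ⟨x₀, hx₀, hn, he⟩ | ⟨_, he⟩
    · obtain ⟨k, hk⟩ := Option.ne_none_iff_exists'.mp hD2
      have hk₀ : r x₀ = some k := by rw [← he, ← hD1, hk]
      obtain ⟨y₁, e₁, hz₁, hn₁, _⟩ := hsome x k hk
      obtain ⟨y₂, e₂, _, hn₂, _⟩ := hsome x₀ k hk₀
      have e : y₂ = y₁ := Fin.ext (by rw [e₁, e₂])
      rw [e] at hn₂
      exact hone ⟨x, x₀, y₁, y, hx₀, hz₁, hR, hn₁, hn₂, hn⟩
    · exact hD2 (by rw [hD1, he])
  · intro hD
    by_contra hn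
    have hx1 : r x ≠ none := fun h => hn (hnone x h y hy)
    rcases hr' y with ⟨x₀, hx₀, hn₀, he⟩ | ⟨h, _⟩
    · have hx2 : r x₀ ≠ none := fun h => hn₀ (hnone x₀ h y hy)
      obtain ⟨k, hk⟩ := Option.ne_none_iff_exists'.mp hx1
      obtain ⟨k₀, hk₀⟩ := Option.ne_none_iff_exists'.mp hx2
      obtain ⟨y₁, e₁, hz₁, hn₁, hl₁⟩ := hsome x k hk
      obtain ⟨y₂, e₂, hz₂, hn₂, hl₂⟩ := hsome x₀ k₀ hk₀
      have l1 : k ≤ k₀ := by
        rw [← e₂]
        exact hl₁ y₂ hz₂ (same x₀ x hx₀ hn₀ hn y₂ hn₂)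
      have l2 : k₀ ≤ k := by
        rw [← e₁]
        exact hl₂ y₁ hz₁ (same x x₀ hx hn hn₀ y₁ hn₁)
      have e : k = k₀ := le_antisymm l1 l2
      have hre : r x = r' y := by rw [he, hk, hk₀, e]
      rcases hD with h | h
      · exact h hre
      · exact hx1 h
    · exact h ⟨x, hx, hn⟩

end Pool.Agent.Helper87.DI
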